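import Mathlib

set_option autoImplicit false

namespace Pool.Agent.H.MP_ebc7ea_an

open Set Filter Topology

variable {X : Type} [NormedAddCommGroup X] [NormedSpace ℝ X]

def Adm (n : ℕ) (E : ℕ → Finset ℕ) : Prop :=
  (∀ i, i < n → ∀ k ∈ E i, n ≤ k + 1) ∧ ∀ i j, i < j → j < n → ∀ k ∈ E i, ∀ l ∈ E j, k < l

structure Ts (e : ℕ → X) (f : ℕ → X →L[ℝ] ℝ) : Prop where
  bio : ∀ i j, f i (e j) = if i = j then 1 else 0
  tend : ∀ x, Tendsto (fun N => ∑ k ∈ Finset.range N, f k x • e k) atTop (𝓝 x)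
  lub : ∀ x, {k | f k x ≠ 0}.Finite → IsLUB ({r | ∃ k, r = |f k x|} ∪
    {r | ∃ (n : ℕ) (E : ℕ → Finset ℕ), Adm n E ∧
      r = 1 / 2 * ∑ i ∈ Finset.range n, ‖∑ k ∈ E i, f k x • e k‖}) ‖x‖

noncomputable def V (e : ℕ → X) (p : ℕ → ℕ) (a : ℕ → ℝ) (s : Finset ℕ) : X :=
  ∑ i ∈ s, a i • e (p i)

variable {e : ℕ → X} {f : ℕ → X →L[ℝ] ℝ}

namespace Ts

variable (h : Ts e f)
include h

lemma f_V {p : ℕ → ℕ} (hp : Function.Injective p) (a : ℕ → ℝ) (s : Finset ℕ) (i : ℕ) :
    f (p i) (V e p a s) = if i ∈ s then a i else 0 := by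
  simp [V, map_sum, h.bio, hp.eq_iff]

lemma f_V0 {p : ℕ → ℕ} (a : ℕ → ℝ) (s : Finset ℕ) {k : ℕ} (hk : ∀ i ∈ s, p i ≠ k) :
    f k (V e p a s) = 0 := by
  rw [V, map_sum]
  exact Finset.sum_eq_zero fun i hi => by rw [map_smul, h.bio, if_neg (hk i hi).symm, smul_zero]

lemma fin_V (p : ℕ → ℕ) (a : ℕ → ℝ) (s : Finset ℕ) : {k | f k (V e p a s) ≠ 0}.Finite :=
  (s.image p).finite_toSet.subset fun k hk => by
    by_contra hc
    exact hk (h.f_V0 a s fun i hi e => hc (Finset.mem_coe.2 (Finset.mem_image.2 ⟨i, hi, e⟩)))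

lemma cut_V (p : ℕ → ℕ) (a : ℕ → ℝ) (s E : Finset ℕ) :
    ∑ k ∈ E, f k (V e p a s) • e k = V e p a (s.filter fun i => p i ∈ E) := by
  simp only [V, map_sum, map_smul, h.bio, smul_eq_mul, Finset.sum_smul]
  rw [Finset.sum_comm, Finset.sum_filter]
  refine Finset.sum_congr rfl fun i _ => ?_
  simp [ite_smul]

lemma low {p : ℕ → ℕ} (a : ℕ → ℝ) (s : Finset ℕ) {n : ℕ} {E : ℕ → Finset ℕ} (hE : Adm n E) :
    ∑ i ∈ Finset.range n, ‖V e p a (s.filter fun j => p j ∈ E i)‖ ≤ 2 * ‖V e p a s‖ := by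
  have := (h.lub _ (h.fin_V p a s)).1 (Or.inr ⟨n, E, hE, rfl⟩)
  simp only [h.cut_V] at this
  linarith

lemma up {p : ℕ → ℕ} (hp : Function.Injective p) (a : ℕ → ℝ) (s : Finset ℕ) {c : ℝ} (hc : 0 ≤ c)
    (h1 : ∀ i ∈ s, |a i| ≤ c) (h2 : ∀ n E, Adm n E →
      ∑ i ∈ Finset.range n, ‖V e p a (s.filter fun j => p j ∈ E i)‖ ≤ 2 * c) :
    ‖V e p a s‖ ≤ c := by
  refine (h.lub _ (h.fin_V p a s)).2 ?_
  rintro _ (⟨k, rfl⟩ | ⟨n, E, hE, rfl⟩)
  · by_cases hk : ∃ i ∈ s, p i = k
    · obtain ⟨i, hi, rfl⟩ := hk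
      rw [h.f_V hp, if_pos hi]
      exact h1 i hi
    · push Not at hk
      rwa [h.f_V0 a s hk, abs_zero]
  · simp only [h.cut_V]
    linarith [h2 n E hE]

lemma coef {p : ℕ → ℕ} (hp : Function.Injective p) (a : ℕ → ℝ) {s : Finset ℕ} {i : ℕ}
    (hi : i ∈ s) : |a i| ≤ ‖V e p a s‖ := by
  have := (h.lub _ (h.fin_V p a s)).1 (Or.inl ⟨p i, rfl⟩)
  rwa [h.f_V hp, if_pos hi] at this

lemma dom {p : ℕ → ℕ} (hp : StrictMono p) (a b : ℕ → ℝ) (s t : Finset ℕ) (hst : s ⊆ t)
    (hab : ∀ i ∈ s, |a i| ≤ |b i|) : ‖V e id a s‖ ≤ ‖V e p b t‖ := by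
  induction s using Finset.strongInduction generalizing t with
  | H s ih =>
    have key : ‖V e id a s‖ ≤ max ‖V e p b t‖ (‖V e id a s‖ / 2) := by
      refine h.up Function.injective_id a s (le_max_of_le_left (norm_nonneg _))
        (fun i hi => le_max_of_le_left ((hab i hi).trans (h.coef hp.injective b (hst hi))))
        fun n E hE => ?_
      by_cases hs : ∃ i, i < n ∧ (s.filter fun j => id j ∈ E i) = s
      · obtain ⟨i, hi, hs⟩ := hs
        rw [Finset.sum_eq_single i (fun j hj hji => by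
          rw [Finset.filter_false_of_mem fun k hk hkj => ?_, V, Finset.sum_empty, norm_zero]
          have hki : k ∈ E i := (Finset.mem_filter.1 (hs.symm ▸ hk)).2
          rcases lt_or_gt_of_ne hji with h' | h'
          · exact lt_irrefl _ (hE.2 j i h' hi k hkj k hki)
          · exact lt_irrefl _ (hE.2 i j h' (Finset.mem_range.1 hj) k hki k hkj))
          (fun h' => absurd (Finset.mem_range.2 hi) h'), hs]
        linarith [le_max_right ‖V e p b t‖ (‖V e id a s‖ / 2)]
      · push Not at hs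
        have h1 := h.low (p := p) b t (n := n) (E := fun i => (E i).image p) ⟨fun i hi k hk => by
          obtain ⟨l, hl, rfl⟩ := Finset.mem_image.1 hk
          exact (hE.1 i hi l hl).trans (Nat.succ_le_succ (hp.le_apply)), fun i j hij hj k hk l hl => by
          obtain ⟨k', hk', rfl⟩ := Finset.mem_image.1 hk
          obtain ⟨l', hl', rfl⟩ := Finset.mem_image.1 hl
          exact hp (hE.2 i j hij hj k' hk' l' hl')⟩
        refine le_trans (Finset.sum_le_sum fun i hi => ih _
          (Finset.filter_ssubset.2 (by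
            by_contra hc
            push Not at hc
            exact hs i (Finset.mem_range.1 hi) (Finset.filter_true_of_mem hc))) _
          (fun k hk => Finset.mem_filter.2 ⟨hst (Finset.mem_filter.1 hk).1,
            Finset.mem_image_of_mem p (Finset.mem_filter.1 hk).2⟩)
          fun k hk => hab k (Finset.mem_filter.1 hk).1) (h1.trans ?_)
        linarith [le_max_left ‖V e p b t‖ (‖V e id a s‖ / 2)]
    rcases le_max_iff.1 key with h1 | h1
    · exact h1
    · linarith [norm_nonneg (V e id a s), norm_nonneg (V e p b t)]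

lemma supp (x : X) (s : Finset ℕ) : ‖V e id (fun k => f k x) s‖ ≤ ‖x‖ := by
  refine ge_of_tendsto (h.tend x).norm ?_
  filter_upwards [eventually_gt_atTop (s.sup id)] with N hN
  exact h.dom strictMono_id _ _ s (Finset.range N)
    (fun k hk => Finset.mem_range.2 ((Finset.le_sup (f := id) hk).trans_lt hN)) fun _ _ => le_rfl

lemma f_le (k : ℕ) (x : X) : |f k x| ≤ ‖x‖ :=
  (h.coef Function.injective_id (fun k => f k x) (Finset.mem_singleton_self k)).trans (h.supp x _)

lemma e_le (k : ℕ) : ‖e k‖ ≤ 1 := by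
  have h1 : ‖V e id (fun _ => 1) {k}‖ ≤ max 1 (‖V e id (fun _ => 1) {k}‖ / 2) := by
    refine h.up Function.injective_id _ _ (le_max_of_le_left zero_le_one)
      (fun _ _ => by simp) fun n E hE => ?_
    have := h.low (p := id) (fun _ => 1) {k} hE
    by_cases hs : ∃ i, i < n ∧ k ∈ E i
    · obtain ⟨i, hi, hs⟩ := hs
      rw [Finset.sum_eq_single i (fun j hj hji => by
        rw [Finset.filter_false_of_mem fun l hl hlj => ?_, V, Finset.sum_empty, norm_zero]
        rw [Finset.mem_singleton.1 hl] at hlj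
        rcases lt_or_gt_of_ne hji with h' | h'
        · exact lt_irrefl _ (hE.2 j i h' hi k hlj k hs)
        · exact lt_irrefl _ (hE.2 i j h' (Finset.mem_range.1 hj) k hs k hlj))
        (fun h' => absurd (Finset.mem_range.2 hi) h'),
        Finset.filter_true_of_mem fun l hl => by rwa [Finset.mem_singleton.1 hl]]
      linarith [le_max_right 1 (‖V e id (fun _ => 1) {k}‖ / 2)]
    · push Not at hs
      rw [Finset.sum_eq_zero fun j hj => by
        rw [Finset.filter_false_of_mem fun l hl hlj => ?_, V, Finset.sum_empty, norm_zero]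
        rw [Finset.mem_singleton.1 hl] at hlj
        exact hs j (Finset.mem_range.1 hj) hlj]
      positivity
  simp only [V, Finset.sum_singleton, one_smul, id] at h1
  rcases le_max_iff.1 h1 with h2 | h2
  · exact h2
  · linarith [norm_nonneg (e k)]

lemma V_l1 (p : ℕ → ℕ) (a : ℕ → ℝ) (s : Finset ℕ) : ‖V e p a s‖ ≤ ∑ i ∈ s, |a i| :=
  (norm_sum_le _ _).trans (Finset.sum_le_sum fun i _ => by
    rw [norm_smul, Real.norm_eq_abs]
    exact mul_le_of_le_one_right (abs_nonneg _) (h.e_le _))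

end Ts

def L (f : ℕ → X →L[ℝ] ℝ) (θ : ℕ → ℕ) : Prop :=
  ∃ C : ℝ, 0 ≤ C ∧ ∀ k x, ∑ n ∈ Finset.Ico k (θ k), |f n x| ≤ C * ‖x‖

lemma L.mono {θ θ' : ℕ → ℕ} (h : L f θ) (h' : ∀ k, θ' k ≤ θ k) : L f θ' := by
  obtain ⟨C, h0, hC⟩ := h
  exact ⟨C, h0, fun k x => (Finset.sum_le_sum_of_subset_of_nonneg
    (Finset.Ico_subset_Ico_right (h' k)) fun _ _ _ => abs_nonneg _).trans (hC k x)⟩

lemma L.comp {θ θ' : ℕ → ℕ} (h : L f θ) (h' : L f θ') : L f fun k => θ (θ' k) := by
  obtain ⟨C, h0, hC⟩ := h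
  obtain ⟨C', h0', hC'⟩ := h'
  refine ⟨C + C', by positivity, fun k x => ?_⟩
  have h1 : Finset.Ico k (θ (θ' k)) ⊆ Finset.Ico k (θ' k) ∪ Finset.Ico (θ' k) (θ (θ' k)) :=
    fun n hn => by
      simp only [Finset.mem_union, Finset.mem_Ico] at hn ⊢
      omega
  have h2 := Finset.sum_le_sum_of_subset_of_nonneg (f := fun n => |f n x|) h1
    fun _ _ _ => abs_nonneg _
  rw [Finset.sum_union (Finset.Ico_disjoint_Ico_consecutive _ _ _)] at h2
  linarith [hC (θ' k) x, hC' k x]

lemma Ts.L_add (h : Ts e f) (c : ℕ) : L f fun k => k + c :=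
  ⟨c, by positivity, fun k x => by
    have := Finset.sum_le_card_nsmul (Finset.Ico k (k + c)) (fun n => |f n x|) ‖x‖
      fun n _ => h.f_le n x
    simpa using this⟩

lemma Ts.iter (h : Ts e f) {θ : ℕ → ℕ} (hθ : ∀ k, k ≤ θ k) {C : ℝ} (h0 : 0 ≤ C)
    (hC : ∀ k x, ∑ n ∈ Finset.Ico k (θ k), |f n x| ≤ C * ‖x‖) (k : ℕ) (x : X) :
    ∑ n ∈ Finset.Ico k (θ^[k + 1] k), |f n x| ≤ 2 * C * ‖x‖ := by
  have hm : Monotone fun j => θ^[j] k := monotone_nat_of_le_succ fun j => by
    rw [Function.iterate_succ_apply']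
    exact hθ _
  have h1 : ∀ m, ∑ n ∈ Finset.Ico k (θ^[m] k), |f n x| =
      ∑ j ∈ Finset.range m, ∑ n ∈ Finset.Ico (θ^[j] k) (θ^[j + 1] k), |f n x| := fun m => by
    induction m with
    | zero => simp
    | succ m ih =>
      rw [Finset.sum_range_succ, ← ih]
      exact (Finset.sum_Ico_consecutive _ (hm (Nat.zero_le m)) (hm (Nat.le_succ m))).symm
  set s := Finset.range (θ^[k + 1] k) with hs
  have h2 := h.low (p := id) (fun n => f n x) s (n := k + 1)
    (E := fun j => Finset.Ico (θ^[j] k) (θ^[j + 1] k)) ⟨fun j _ n hn =>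
      Nat.succ_le_succ ((hm (Nat.zero_le j)).trans (Finset.mem_Ico.1 hn).1),
      fun i j hij _ n hn l hl =>
        (Finset.mem_Ico.1 hn).2.trans_le ((hm hij).trans (Finset.mem_Ico.1 hl).1)⟩
  rw [h1]
  calc _ ≤ ∑ j ∈ Finset.range (k + 1), C * ‖V e id (fun n => f n x)
        (s.filter fun n => id n ∈ Finset.Ico (θ^[j] k) (θ^[j + 1] k))‖ :=
        Finset.sum_le_sum fun j hj => by
          refine le_trans (le_of_eq (Finset.sum_congr ?_ fun n hn => ?_)) (hC (θ^[j] k) _)
          · rw [Function.iterate_succ_apply']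
          · have := h.f_V Function.injective_id (fun n => f n x)
              (s.filter fun n => id n ∈ Finset.Ico (θ^[j] k) (θ^[j + 1] k)) n
            rw [← Function.iterate_succ_apply' θ] at hn
            rw [if_pos (show n ∈ s.filter (fun n => id n ∈ Finset.Ico (θ^[j] k) (θ^[j + 1] k)) from
              Finset.mem_filter.2 ⟨Finset.mem_range.2 ((Finset.mem_Ico.1 hn).2.trans_le
              (hm (Finset.mem_range.1 hj))), hn⟩)] at this
            exact congrArg abs this.symm
    _ ≤ C * (2 * ‖x‖) := by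
        rw [← Finset.mul_sum]
        exact mul_le_mul_of_nonneg_left (h2.trans (by linarith [h.supp x s])) h0
    _ = _ := by ring

lemma Ts.win (h : Ts e f) (k : ℕ) (x : X) :
    ∑ n ∈ Finset.Ico k (2 * k + 1), |f n x| ≤ 2 * ‖x‖ := by
  have := h.iter (θ := fun k => k + 1) (fun k => Nat.le_succ k) zero_le_one
    (fun k x => by simpa using h.f_le k x) k x
  have e1 : ∀ j, (fun k => k + 1)^[j] k = k + j := fun j => by
    induction j with
    | zero => rfl
    | succ j ih => rw [Function.iterate_succ_apply', ih, add_assoc]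
  rwa [e1, mul_one, show k + (k + 1) = 2 * k + 1 by ring] at this

lemma Ts.L_two (h : Ts e f) : L f fun k => 2 * k + 1 := ⟨2, zero_le_two, h.win⟩

lemma Ts.L_pow (h : Ts e f) : L f fun k => 2 ^ k := by
  refine L.mono ⟨2 * 2, by norm_num, h.iter (θ := fun k => 2 * k + 1) (fun k => by omega)
    zero_le_two h.win⟩ fun k => ?_
  have : ∀ j, (fun k => 2 * k + 1)^[j] k + 1 = 2 ^ j * (k + 1) := fun j => by
    induction j with
    | zero => simp
    | succ j ih => rw [Function.iterate_succ_apply', pow_succ]; linarith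
  have h1 := this (k + 1)
  have h2 : 1 ≤ 2 ^ k := Nat.one_le_two_pow
  rw [pow_succ] at h1
  nlinarith

lemma sum_two (g : ℕ → ℝ) (m : ℕ) :
    ∑ t ∈ Finset.range (2 * m), g t = ∑ l ∈ Finset.range m, (g (2 * l) + g (2 * l + 1)) := by
  induction m with
  | zero => simp
  | succ m ih => rw [mul_add, mul_one, Finset.sum_range_succ, Finset.sum_range_succ, ih,
      Finset.sum_range_succ, add_assoc]

theorem Ts.spread (h : Ts e f) {p : ℕ → ℕ} (hp : StrictMono p) (hL : L f fun k => 2 * p k + 2) :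
    ∃ C : ℝ, ∀ a s, ‖V e p a s‖ ≤ C * ‖V e id a s‖ := by
  obtain ⟨C, h0, hC⟩ := hL
  have l1 : ∀ (a : ℕ → ℝ) (s : Finset ℕ) (k : ℕ),
      ∑ i ∈ s.filter fun i => i ∈ Finset.Ico k (2 * p k + 2), |a i| ≤
        C * ‖V e id a (s.filter fun i => i ∈ Finset.Ico k (2 * p k + 2))‖ := fun a s k => by
    refine le_trans ?_ (hC k _)
    refine le_trans (le_of_eq (Finset.sum_congr rfl fun i hi => ?_))
      (Finset.sum_le_sum_of_subset_of_nonneg (fun i hi => (Finset.mem_filter.1 hi).2)
        fun _ _ _ => abs_nonneg _)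
    have := h.f_V Function.injective_id a (s.filter fun i => i ∈ Finset.Ico k (2 * p k + 2)) i
    rw [if_pos hi] at this
    exact congrArg abs this.symm
  have key : ∀ (a : ℕ → ℝ) (s : Finset ℕ), ∃ k, ‖V e p a s‖ ≤
      ∑ i ∈ s.filter fun i => i ∈ Finset.Ico k (2 * p k + 2), |a i| +
        C * ‖V e id a (s.filter fun i => 2 * p k + 2 ≤ i)‖ := by
    intro a s
    induction s using Finset.strongInduction with
    | H s ih =>
      rcases s.eq_empty_or_nonempty with rfl | hne
      · exact ⟨0, by simp [V]⟩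
      set B : ℕ → ℝ := fun k => ∑ i ∈ s.filter fun i => i ∈ Finset.Ico k (2 * p k + 2), |a i| +
        C * ‖V e id a (s.filter fun i => 2 * p k + 2 ≤ i)‖ with hB
      have hB0 : ∀ k, 0 ≤ B k := fun k => by positivity
      obtain ⟨k0, -, hk0⟩ := Finset.exists_max_image s B hne
      refine ⟨k0, h.up hp.injective a s (hB0 k0) (fun i hi => le_trans ?_ (hk0 i hi))
        fun n E hE => ?_⟩
      · refine le_add_of_le_of_nonneg (Finset.single_le_sum (f := fun i => |a i|)
          (fun _ _ => abs_nonneg _) (Finset.mem_filter.2 ⟨hi, Finset.mem_Ico.2 ⟨le_rfl, ?_⟩⟩))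
          (by positivity)
        have := hp.le_apply (x := i)
        omega
      by_cases hx : ∃ k, k ∈ s ∧ ∃ l, l < n ∧ p k ∈ E l
      swap
      · push Not at hx
        rw [Finset.sum_eq_zero fun l hl => by
          rw [Finset.filter_false_of_mem fun i hi => hx i hi l (Finset.mem_range.1 hl), V,
            Finset.sum_empty, norm_zero]]
        linarith [hB0 k0]
      classical
      obtain ⟨hks, l0, hl0, hkE⟩ := Nat.find_spec hx
      have hmin := fun i => Nat.find_min' hx (m := i)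
      set k := Nat.find hx with hk
      have hn : n ≤ p k + 1 := hE.1 l0 hl0 _ hkE
      have hkθ : k < 2 * p k + 2 := by
        have := hp.le_apply (x := k)
        omega
      set s' : ℕ → Finset ℕ := fun l => (s.filter fun j => p j ∈ E l).filter
        fun i => 2 * p k + 2 ≤ i with hs'
      have hss : ∀ l, s' l ⊂ s := fun l => Finset.ssubset_iff_subset_ne.2
        ⟨(Finset.filter_subset _ _).trans (Finset.filter_subset _ _), fun e => by
          have := (Finset.mem_filter.1 (show k ∈ s' l from e.symm ▸ hks)).2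
          omega⟩
      choose κ hκ using fun l => ih _ (hss l)
      set F : ℕ → Finset ℕ := fun t => if t % 2 = 0 then
        (s' (t / 2)).filter fun i => i ∈ Finset.Ico (κ (t / 2)) (2 * p (κ (t / 2)) + 2)
        else (s' (t / 2)).filter fun i => 2 * p (κ (t / 2)) + 2 ≤ i with hF
      have hF1 : ∀ t, F t ⊆ s' (t / 2) := fun t => by
        simp only [hF]
        split_ifs <;> exact Finset.filter_subset _ _
      have hA : Adm (2 * n) F := by
        refine ⟨fun t _ i hi => ?_, fun t u htu hu i hi j hj => ?_⟩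
        · have := (Finset.mem_filter.1 (hF1 t hi)).2
          omega
        · rcases (Nat.div_le_div_right (c := 2) htu.le).lt_or_eq with h' | h'
          · exact hp.lt_iff_lt.1 (hE.2 _ _ h' (by omega) _
              (Finset.mem_filter.1 (Finset.mem_filter.1 (hF1 t hi)).1).2 _
              (Finset.mem_filter.1 (Finset.mem_filter.1 (hF1 u hj)).1).2)
          · simp only [hF] at hi hj
            rw [if_pos (by omega)] at hi
            rw [if_neg (by omega), ← h'] at hj
            have := (Finset.mem_Ico.1 (Finset.mem_filter.1 hi).2).2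
            have := (Finset.mem_filter.1 hj).2
            omega
      have a1 := h.low (p := id) a (s.filter fun i => 2 * p k + 2 ≤ i) hA
      rw [Finset.sum_congr rfl (g := fun t => ‖V e id a (F t)‖) fun t _ => by
        congr 2
        ext i
        simp only [Finset.mem_filter, id]
        refine ⟨fun h' => h'.2, fun h' => ⟨?_, h'⟩⟩
        have := Finset.mem_filter.1 (hF1 t h')
        exact ⟨(Finset.mem_filter.1 this.1).1, this.2⟩, sum_two] at a1
      have a2 : ∀ l ∈ Finset.range n, ‖V e p a (s.filter fun j => p j ∈ E l)‖ ≤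
          ∑ i ∈ (s.filter fun j => p j ∈ E l).filter (fun i => ¬ 2 * p k + 2 ≤ i), |a i| +
          C * (‖V e id a (F (2 * l))‖ + ‖V e id a (F (2 * l + 1))‖) := fun l _ => by
        have b1 := hκ l
        have b2 := l1 a (s' l) (κ l)
        have b3 : V e p a (s.filter fun j => p j ∈ E l) = V e p a (s' l) +
            V e p a ((s.filter fun j => p j ∈ E l).filter fun i => ¬ 2 * p k + 2 ≤ i) :=
          (Finset.sum_filter_add_sum_filter_not _ _ _).symm
        have b4 := norm_add_le (V e p a (s' l))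
          (V e p a ((s.filter fun j => p j ∈ E l).filter fun i => ¬ 2 * p k + 2 ≤ i))
        have b5 := h.V_l1 p a ((s.filter fun j => p j ∈ E l).filter fun i => ¬ 2 * p k + 2 ≤ i)
        simp only [hF, Nat.mul_mod_right, if_true, Nat.mul_div_cancel_left l two_pos,
          show (2 * l + 1) % 2 ≠ 0 by omega, if_false, show (2 * l + 1) / 2 = l by omega]
        rw [b3]
        linarith
      have a3 : ∑ l ∈ Finset.range n,
          ∑ i ∈ (s.filter fun j => p j ∈ E l).filter (fun i => ¬ 2 * p k + 2 ≤ i), |a i| ≤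
          ∑ i ∈ s.filter fun i => i ∈ Finset.Ico k (2 * p k + 2), |a i| := by
        rw [← Finset.sum_biUnion]
        · refine Finset.sum_le_sum_of_subset_of_nonneg (fun i hi => ?_) fun _ _ _ => abs_nonneg _
          obtain ⟨l, hl, hi⟩ := Finset.mem_biUnion.1 hi
          simp only [Finset.mem_filter, Finset.mem_Ico] at hi ⊢
          exact ⟨hi.1.1, hmin i ⟨hi.1.1, l, Finset.mem_range.1 hl, hi.1.2⟩, by omega⟩
        · intro l hl l' hl' hll
          refine Finset.disjoint_left.2 fun i hi hi' => ?_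
          simp only [Finset.mem_filter] at hi hi'
          rcases lt_or_gt_of_ne hll with h' | h'
          · exact lt_irrefl _ (hE.2 _ _ h' (Finset.mem_range.1 hl') _ hi.1.2 _ hi'.1.2)
          · exact lt_irrefl _ (hE.2 _ _ h' (Finset.mem_range.1 hl) _ hi'.1.2 _ hi.1.2)
      have a4 := Finset.sum_le_sum a2
      rw [Finset.sum_add_distrib, ← Finset.mul_sum] at a4
      have a5 := mul_le_mul_of_nonneg_left a1 h0
      have a6 := hk0 k hks
      have a7 : 0 ≤ ∑ i ∈ s.filter fun i => i ∈ Finset.Ico k (2 * p k + 2), |a i| := by positivity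
      simp only [hB] at a6 ⊢
      linarith
  refine ⟨2 * C, fun a s => ?_⟩
  obtain ⟨k, hk⟩ := key a s
  have a1 := mul_le_mul_of_nonneg_left (h.dom strictMono_id a a _ s
    (Finset.filter_subset (fun i => i ∈ Finset.Ico k (2 * p k + 2)) s) fun _ _ => le_rfl) h0
  have a2 := mul_le_mul_of_nonneg_left (h.dom strictMono_id a a _ s
    (Finset.filter_subset (fun i => 2 * p k + 2 ≤ i) s) fun _ _ => le_rfl) h0
  linarith [l1 a s k]

end Pool.Agent.H.MP_ebc7ea_an
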