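import Pool.Agent.H.MP_ebc7ea_an.A

set_option autoImplicit false

namespace Pool.Agent.H.MP_ebc7ea_an

open Set Filter Topology

variable {X : Type} [NormedAddCommGroup X] [NormedSpace ℝ X]
variable {e : ℕ → X} {f : ℕ → X →L[ℝ] ℝ}

noncomputable def sq {α : Type} (F : (i : ℕ) → (Fin i → α) → α) (i : ℕ) : α :=
  F i fun j => sq F j
termination_by i
decreasing_by exact j.2

lemma sq_eq {α : Type} (F : (i : ℕ) → (Fin i → α) → α) (i : ℕ) :
    sq F i = F i fun j => sq F j := by rw [sq]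

lemma Ts.lim_op [CompleteSpace X] (h : Ts e f) (T : ℕ → X →L[ℝ] X) {C : ℝ} (h0 : 0 ≤ C)
    (hC : ∀ N x, ‖T N x‖ ≤ C * ‖x‖) (hT : ∀ j, ∃ y, ∀ᶠ N in atTop, T N (e j) = y) :
    ∃ S : X →L[ℝ] X, ∀ x, Tendsto (fun N => T N x) atTop (𝓝 (S x)) := by
  choose y hy using hT
  have hc : ∀ x, CauchySeq fun N => T N x := fun x => by
    refine Metric.cauchySeq_iff.2 fun ε hε => ?_
    obtain ⟨m, hm⟩ := ((h.tend x).eventually
      (Metric.ball_mem_nhds x (show 0 < ε / (3 * (C + 1)) by positivity))).exists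
    set u := ∑ k ∈ Finset.range m, f k x • e k with hu
    have h1 : Tendsto (fun N => T N u) atTop (𝓝 (∑ k ∈ Finset.range m, f k x • y k)) := by
      simp only [hu, map_sum, map_smul]
      exact tendsto_finsetSum _ fun k _ =>
        (tendsto_const_nhds.congr' ((hy k).mono fun N hN => hN.symm)).const_smul _
    obtain ⟨M, hM⟩ := Metric.cauchySeq_iff.1 h1.cauchySeq (ε / 3) (by positivity)
    refine ⟨M, fun a ha b hb => ?_⟩
    have h2 := hM a ha b hb
    have h3 : C * ‖u - x‖ ≤ ε / 3 := by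
      rw [dist_eq_norm, lt_div_iff₀ (by positivity)] at hm
      nlinarith [norm_nonneg (u - x)]
    have h4 := hC a (u - x)
    have h5 := hC b (u - x)
    rw [map_sub, ← dist_eq_norm] at h4 h5
    linarith [dist_triangle4 (T a x) (T a u) (T b u) (T b x), dist_comm (T a x) (T a u)]
  choose g hg using fun x => cauchySeq_tendsto_of_complete (hc x)
  exact ⟨continuousLinearMapOfTendsto T (tendsto_pi_nhds.2 hg), hg⟩

lemma Ts.few (h : Ts e f) (N : ℕ) (z : X) {η : ℝ} (hη : 0 < η) {b : ℕ} (hb : 2 * ‖z‖ ≤ b * η) :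
    ((Finset.Ico N (2 * N)).filter fun n => η < |f n z|).card ≤ b := by
  have h1 := Finset.card_nsmul_le_sum ((Finset.Ico N (2 * N)).filter fun n => η < |f n z|)
    (fun n => |f n z|) η fun n hn => (Finset.mem_filter.1 hn).2.le
  have h2 := Finset.sum_le_sum_of_subset_of_nonneg (f := fun n => |f n z|)
    ((Finset.filter_subset (fun n => η < |f n z|) _).trans
      (Finset.Ico_subset_Ico_right (Nat.le_succ (2 * N)) (a := N))) fun _ _ _ => abs_nonneg _
  rw [nsmul_eq_mul] at h1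
  exact_mod_cast le_of_mul_le_mul_right (h1.trans (h2.trans ((h.win N z).trans hb))) hη

lemma Ts.step (h : Ts e f) (A : X →L[ℝ] X) {η δ : ℝ} (hη : 0 < η) (hδ : 0 < δ) {a b : ℕ}
    (ha : 2 * ‖A‖ ≤ a * δ) (hb : ‖A‖ ≤ b * η) (i N : ℕ)
    (hN : (2 * b + 1) ^ i * a + i * (4 * b) < N) (P : Fin i → ℕ × ℕ) :
    ∃ q : ℕ × ℕ, q.1 ∈ Finset.Ico N (2 * N) ∧ q.2 ∈ Finset.Ico N (2 * N) ∧
      |f q.1 (A (e q.2))| ≤ δ ∧ ∀ j, |f q.1 (A (e (P j).1 - e (P j).2))| ≤ η ∧
        |f (P j).1 (A (e q.1 - e q.2))| ≤ η := by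
  classical
  have hA : ∀ n, ‖A (e n)‖ ≤ ‖A‖ := fun n =>
    (A.le_opNorm _).trans (mul_le_of_le_one_right (norm_nonneg _) (h.e_le n))
  set B := Finset.univ.biUnion fun j : Fin i =>
    (Finset.Ico N (2 * N)).filter fun n => η < |f n (A (e (P j).1 - e (P j).2))| with hB
  have b1 : B.card ≤ i * (4 * b) := by
    have := Finset.card_biUnion_le_card_mul Finset.univ (fun j : Fin i =>
      (Finset.Ico N (2 * N)).filter fun n => η < |f n (A (e (P j).1 - e (P j).2))|) (4 * b)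
      fun j _ => h.few N _ hη (by
        have := norm_sub_le (A (e (P j).1)) (A (e (P j).2))
        rw [map_sub]
        push_cast
        linarith [hA (P j).1, hA (P j).2])
    rwa [Finset.card_univ, Fintype.card_fin] at this
  have b2 : N - i * (4 * b) ≤ (Finset.Ico N (2 * N) \ B).card := by
    have := Finset.le_card_sdiff B (Finset.Ico N (2 * N))
    rw [Nat.card_Ico] at this
    omega
  obtain ⟨c, -, hc⟩ := Finset.exists_lt_card_fiber_of_mul_lt_card_of_maps_to
    (s := Finset.Ico N (2 * N) \ B) (n := a)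
    (t := Fintype.piFinset fun _ : Fin i => Finset.Icc (-(b : ℤ)) b)
    (f := fun n j => ⌊f (P j).1 (A (e n)) / η⌋) (fun n _ => Fintype.mem_piFinset.2 fun j => by
      have := abs_le.1 ((h.f_le (P j).1 _).trans ((hA n).trans hb))
      refine Finset.mem_Icc.2 ⟨Int.le_floor.2 ?_, Int.cast_le (R := ℝ).1 ((Int.floor_le _).trans ?_)⟩
      · rw [le_div_iff₀ hη]
        push_cast
        linarith
      · rw [div_le_iff₀ hη]
        push_cast
        linarith) (by
      rw [Fintype.card_piFinset, Finset.prod_const, Int.card_Icc, Finset.card_univ,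
        Fintype.card_fin, show ((b : ℤ) + 1 - -(b : ℤ)).toNat = 2 * b + 1 by omega]
      omega)
  set Q := (Finset.Ico N (2 * N) \ B).filter fun n => (fun j => ⌊f (P j).1 (A (e n)) / η⌋) = c
    with hQ
  obtain ⟨n', hn'⟩ := Finset.card_pos.1 ((Nat.zero_le a).trans_lt hc)
  obtain ⟨n, hn, hn1⟩ := Finset.exists_mem_notMem_of_card_lt_card
    ((h.few N (A (e n')) hδ (b := a) (by linarith [hA n'])).trans_lt hc)
  simp only [hQ, hB, Finset.mem_filter, Finset.mem_sdiff, Finset.mem_biUnion, Finset.mem_univ,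
    true_and, not_exists, not_and, not_lt] at hn hn' hn1
  refine ⟨(n, n'), hn.1.1, hn'.1.1, hn1 hn.1.1, fun j => ⟨hn.1.2 j hn.1.1, ?_⟩⟩
  have e1 : ⌊f (P j).1 (A (e n)) / η⌋ = ⌊f (P j).1 (A (e n')) / η⌋ :=
    (congrFun hn.2 j).trans (congrFun hn'.2 j).symm
  have e2 := Int.abs_sub_lt_one_of_floor_eq_floor e1
  rw [← sub_div, abs_div, abs_of_pos hη, div_lt_one hη] at e2
  simp only [map_sub]
  exact e2.le

def NN (a i : ℕ) : ℕ := 2 ^ ((2 * i + 2 + a) * (i + 3))

lemma NN_big {a : ℕ} (ha : 1 ≤ a) (i : ℕ) :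
    (2 * (a * 4 ^ i) + 1) ^ i * a + i * (4 * (a * 4 ^ i)) < NN a i := by
  have h1 : a ≤ 2 ^ a := Nat.lt_two_pow_self.le
  have h2 : 1 ≤ 4 ^ i := Nat.one_le_pow _ _ (by norm_num)
  have h3 : i < 4 ^ i := Nat.lt_pow_self (by norm_num)
  set y := 2 ^ (2 * i + 2 + a) with hy
  have h4 : 4 * (a * 4 ^ i) ≤ y := by
    rw [hy, pow_add, pow_add, pow_mul]
    norm_num
    nlinarith
  have h5 : 1 ≤ a * 4 ^ i := by nlinarith
  have h6 : (2 * (a * 4 ^ i) + 1) ^ i ≤ y ^ i := Nat.pow_le_pow_left (by omega) i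
  have h7 : a ≤ y := by nlinarith
  have h8 : i < y := by nlinarith
  have h9 : 1 ≤ y ^ i := Nat.one_le_pow _ _ (by omega)
  rw [NN, pow_mul, ← hy, pow_add]
  calc _ ≤ y ^ i * y + y ^ i * (i * y) := by
        exact add_le_add (Nat.mul_le_mul h6 h7)
          ((Nat.mul_le_mul_left i h4).trans (Nat.le_mul_of_pos_left _ h9))
    _ = y ^ i * (y * (i + 1)) := by ring
    _ < y ^ i * y ^ 3 := by
        refine Nat.mul_lt_mul_of_pos_left ?_ (by omega)
        have : 4 ≤ y := by omega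
        calc y * (i + 1) ≤ y * y := Nat.mul_le_mul_left y h8
          _ < y ^ 3 := by nlinarith

lemma NN_succ (a i : ℕ) : 2 * NN a i ≤ NN a (i + 1) := by
  rw [NN, NN, ← pow_succ']
  exact Nat.pow_le_pow_right two_pos (by nlinarith)

lemma Ts.L_NN (h : Ts e f) (a : ℕ) : L f fun k => 4 * NN a k + 2 := by
  refine (h.L_pow.comp (h.L_pow.comp (h.L_two.comp (h.L_two.comp (h.L_add (a + 3)))))).mono
    fun k => ?_
  set w := 2 * (k + (a + 3)) + 1 with hw
  have h1 : w ≤ 2 ^ w := Nat.lt_two_pow_self.le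
  have h2 : (2 * k + 2 + a) * (k + 3) + 3 ≤ 2 ^ (2 * w + 1) := by
    calc _ ≤ w * w := by rw [hw]; nlinarith
      _ ≤ 2 ^ w * 2 ^ w := Nat.mul_le_mul h1 h1
      _ ≤ _ := by rw [← pow_add]; exact Nat.pow_le_pow_right two_pos (by omega)
  refine le_trans ?_ (Nat.pow_le_pow_right two_pos h2)
  have : 1 ≤ NN a k := Nat.one_le_two_pow
  rw [pow_add, ← NN]
  omega

theorem Ts.main [CompleteSpace X] (h : Ts e f) (A : X →L[ℝ] X) {δ : ℝ} (hδ : 0 < δ)
    (hA : ∀ k, δ ≤ |f k (A (e k))|) :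
    ∃ R S : X →L[ℝ] X, S ∘L A ∘L R = ContinuousLinearMap.id ℝ X := by
  obtain ⟨a, ha⟩ := exists_nat_ge (16 * ‖A‖ / δ + 1)
  have ha0 : 0 ≤ 16 * ‖A‖ / δ := by positivity
  have ha1 : 1 ≤ a := by exact_mod_cast (show (1 : ℝ) ≤ a by linarith)
  have ha2 : 16 * ‖A‖ ≤ a * δ := (div_le_iff₀ hδ).1 (by linarith)
  choose F hF using fun i => h.step A (η := δ / (16 * 4 ^ i)) (δ := δ / 2) (by positivity)
    (by positivity) (a := a) (b := a * 4 ^ i) (by linarith [norm_nonneg A]) (by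
      push_cast
      rw [show (a * 4 ^ i : ℝ) * (δ / (16 * 4 ^ i)) = a * δ / 16 by field_simp]
      linarith) i (NN a i) (NN_big ha1 i)
  have hP := fun i => hF i fun j => sq F j
  simp only [← sq_eq] at hP
  set p : ℕ → ℕ := fun i => (sq F i).1 with hp
  set p' : ℕ → ℕ := fun i => (sq F i).2 with hp'
  have mono : ∀ q : ℕ → ℕ, (∀ i, q i ∈ Finset.Ico (NN a i) (2 * NN a i)) → StrictMono q ∧
      ∃ C, 0 ≤ C ∧ ∀ x N, ‖V e q (fun i => f i x) (Finset.range N)‖ ≤ C * ‖x‖ := fun q hq => by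
    have hm : StrictMono q := strictMono_nat_of_lt_succ fun i =>
      (Finset.mem_Ico.1 (hq i)).2.trans_le ((NN_succ a i).trans (Finset.mem_Ico.1 (hq (i + 1))).1)
    obtain ⟨C, hC⟩ := h.spread hm ((h.L_NN a).mono fun k => by
      have := (Finset.mem_Ico.1 (hq k)).2
      omega)
    exact ⟨hm, |C|, abs_nonneg _, fun x N => (hC _ _).trans
      (mul_le_mul (le_abs_self C) (h.supp x _) (norm_nonneg _) (abs_nonneg _))⟩
  obtain ⟨hm, C, hC0, hC⟩ := mono p fun i => (hP i).1
  obtain ⟨-, C', hC0', hC'⟩ := mono p' fun i => (hP i).2.1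
  set x : ℕ → X := fun i => e (p i) - e (p' i) with hx
  set d : ℕ → ℝ := fun i => f (p i) (A (x i)) with hd
  have d1 : ∀ i, δ / 2 ≤ |d i| := fun i => by
    have h1 := hA (p i)
    have h2 := (hP i).2.2.1
    have h3 := abs_sub_abs_le_abs_sub (f (p i) (A (e (p i)))) (f (p i) (A (e (p' i))))
    simp only [hd, hx, map_sub]
    linarith
  have d0 : ∀ i, d i ≠ 0 := fun i => abs_pos.1 ((half_pos hδ).trans_le (d1 i))
  have off : ∀ i j, |f (p i) (A (x j)) / d i - if i = j then 1 else 0| ≤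
      1 / 8 * (1 / 2) ^ j * (1 / 2) ^ i := fun i j => by
    have key : ∀ m, i ≤ m → j ≤ m → |f (p i) (A (x j))| ≤ δ / (16 * 4 ^ m) →
        |f (p i) (A (x j)) / d i - 0| ≤ 1 / 8 * (1 / 2) ^ j * (1 / 2) ^ i := fun m hi hj hm => by
      have h1 : (1 / 2 : ℝ) ^ m ≤ (1 / 2) ^ i := pow_le_pow_of_le_one (by norm_num) (by norm_num) hi
      have h2 : (1 / 2 : ℝ) ^ m ≤ (1 / 2) ^ j := pow_le_pow_of_le_one (by norm_num) (by norm_num) hj
      rw [sub_zero, abs_div, div_le_iff₀ (abs_pos.2 (d0 i))]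
      calc _ ≤ δ / (16 * 4 ^ m) := hm
        _ = 1 / 8 * (1 / 2) ^ m * (1 / 2) ^ m * (δ / 2) := by
          rw [show (4 : ℝ) ^ m = 2 ^ m * 2 ^ m by rw [← mul_pow]; norm_num, one_div_pow]
          field_simp
          norm_num
        _ ≤ _ := by gcongr; exact d1 i
    rcases lt_trichotomy i j with h' | rfl | h'
    · rw [if_neg h'.ne]
      exact key j h'.le le_rfl ((hP j).2.2.2 ⟨i, h'⟩).2
    · rw [if_pos rfl, div_self (d0 i), sub_self, abs_zero]
      positivity
    · rw [if_neg h'.ne']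
      exact key i le_rfl h'.le ((hP i).2.2.2 ⟨j, h'⟩).1
  obtain ⟨R, hR⟩ := h.lim_op (fun N => ∑ i ∈ Finset.range N, (f i).smulRight (x i))
    (add_nonneg hC0 hC0') (fun N y => by
      have := norm_sub_le (V e p (fun i => f i y) (Finset.range N))
        (V e p' (fun i => f i y) (Finset.range N))
      rw [show (∑ i ∈ Finset.range N, (f i).smulRight (x i)) y =
        V e p (fun i => f i y) (Finset.range N) - V e p' (fun i => f i y) (Finset.range N) by
          simp [V, hx, smul_sub]]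
      linarith [hC y N, hC' y N]) fun j => ⟨x j, (eventually_gt_atTop j).mono fun N hN => by
        simp [h.bio, hN]⟩
  have hRe : ∀ j, R (e j) = x j := fun j => tendsto_nhds_unique (hR _)
    (tendsto_const_nhds.congr' ((eventually_gt_atTop j).mono fun N hN => by simp [h.bio, hN]))
  have hS0 : ∀ N y, (∑ i ∈ Finset.range N, ((d i)⁻¹ • f (p i)).smulRight (e i)) y =
      V e id (fun i => f (p i) y / d i) (Finset.range N) := fun N y => by
    simp [V, div_eq_inv_mul]
  obtain ⟨S, hS⟩ := h.lim_op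
    (fun N => ∑ i ∈ Finset.range N, ((d i)⁻¹ • f (p i)).smulRight (e i))
    (C := 2 / δ) (by positivity) (fun N y => by
      rw [hS0]
      refine (h.dom hm _ (fun i => f (p i) ((2 / δ) • y)) _ _ subset_rfl fun i _ => ?_).trans ?_
      · rw [abs_div, map_smul, smul_eq_mul, abs_mul, div_le_iff₀ (abs_pos.2 (d0 i)),
          abs_of_pos (by positivity : 0 < 2 / δ)]
        calc _ = 2 / δ * |f (p i) y| * (δ / 2) := by field_simp
          _ ≤ _ := by gcongr; exact d1 i
      · have := h.supp ((2 / δ) • y) ((Finset.range N).image p)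
        rwa [V, Finset.sum_image fun _ _ _ _ e => hm.injective e, norm_smul,
          Real.norm_of_nonneg (by positivity)] at this) fun j => by
      by_cases hj : ∃ i, p i = j
      · obtain ⟨i, rfl⟩ := hj
        exact ⟨(d i)⁻¹ • e i, (eventually_gt_atTop i).mono fun N hN => by
          simp [h.bio, hm.injective.eq_iff, hN]⟩
      · push Not at hj
        exact ⟨0, Eventually.of_forall fun N => by simp [h.bio, hj]⟩
  have b1 : ∀ j, ‖(1 - S ∘L A ∘L R) (e j)‖ ≤ 1 / 4 * (1 / 2) ^ j := fun j => by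
    have := ((hS (A (x j))).const_sub (e j)).norm
    rw [show (1 - S ∘L A ∘L R) (e j) = e j - S (A (x j)) by simp [hRe]]
    refine le_of_tendsto this ((eventually_gt_atTop j).mono fun N hN => ?_)
    rw [hS0, norm_sub_rev, show V e id (fun i => f (p i) (A (x j)) / d i) (Finset.range N) - e j =
      V e id (fun i => f (p i) (A (x j)) / d i - if i = j then 1 else 0) (Finset.range N) by
        simp [V, sub_smul, hN]]
    refine (h.V_l1 _ _ _).trans ((Finset.sum_le_sum fun i _ => off i j).trans ?_)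
    rw [← Finset.mul_sum]
    nlinarith [sum_geometric_two_le N, (by positivity : (0 : ℝ) < (1 / 2) ^ j)]
  have b2 : ‖1 - S ∘L A ∘L R‖ < 1 := by
    refine lt_of_le_of_lt (ContinuousLinearMap.opNorm_le_bound _ (M := 1 / 2) (by norm_num)
      fun y => ?_) (by norm_num)
    refine le_of_tendsto' (((1 - S ∘L A ∘L R).continuous.tendsto y).comp (h.tend y)).norm
      fun N => ?_
    simp only [Function.comp, map_sum, map_smul]
    refine (norm_sum_le _ _).trans ((Finset.sum_le_sum (g := fun j => ‖y‖ / 4 * (1 / 2) ^ j)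
      fun j _ => ?_).trans ?_)
    · rw [norm_smul, Real.norm_eq_abs]
      calc _ ≤ ‖y‖ * (1 / 4 * (1 / 2) ^ j) :=
            mul_le_mul (h.f_le j y) (b1 j) (norm_nonneg _) (norm_nonneg _)
        _ = _ := by ring
    · rw [← Finset.mul_sum]
      nlinarith [sum_geometric_two_le N, norm_nonneg y]
  refine ⟨R, ((Units.oneSub _ b2)⁻¹ : (X →L[ℝ] X)ˣ) ∘L S, ?_⟩
  have := (Units.oneSub _ b2).inv_mul
  rwa [Units.val_oneSub, sub_sub_cancel] at this

end Pool.Agent.H.MP_ebc7ea_an
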